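import Mathlib

set_option autoImplicit false
open Finset

namespace Pool.Agent.SpecDir

/-- all `r`-fold differences vanish -/
def Deg {G : Type} [CommRing G] : ℕ → (G → G) → Prop
  | 0, φ => ∀ x, φ x = 0
  | (r+1), φ => ∀ h, Deg r (fun x => φ (x+h) - φ x)

lemma Deg.mul {G : Type} [CommRing G] (c : G) : ∀ (r : ℕ) (φ : G → G), Deg r φ →
    Deg r (fun x => c * φ x)
  | 0, φ, h => fun x => by simp [h x]
  | (r+1), φ, h => fun t => by
      have := Deg.mul c r _ (h t)
      simpa [mul_sub] using this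

lemma norm_sq_sum (p : ℕ) [NeZero p] (φ : ZMod p → ZMod p) :
    ‖∑ x, ZMod.stdAddChar (φ x)‖ ^ 2 ≤
      ∑ h : ZMod p, ‖∑ x, ZMod.stdAddChar (φ (x + h) - φ x)‖ := by
  have h1 : (∑ x, ZMod.stdAddChar (φ x)) * (starRingEnd ℂ) (∑ x, ZMod.stdAddChar (φ x))
      = ∑ h : ZMod p, ∑ x, ZMod.stdAddChar (φ (x + h) - φ x) := by
    rw [map_sum, Finset.sum_comm, Finset.mul_sum]
    refine Finset.sum_congr rfl fun x _ => ?_
    rw [Finset.sum_mul]
    rw [← Equiv.sum_comp (Equiv.addLeft x)]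
    refine Finset.sum_congr rfl fun h _ => ?_
    rw [sub_eq_add_neg, AddChar.map_add_eq_mul, AddChar.map_neg_eq_conj]
    simp
  have h2 : ‖∑ x, ZMod.stdAddChar (φ x)‖ ^ 2 =
      ‖(∑ x, ZMod.stdAddChar (φ x)) * (starRingEnd ℂ) (∑ x, ZMod.stdAddChar (φ x))‖ := by
    rw [norm_mul, RCLike.norm_conj, sq]
  rw [h2, h1]
  exact norm_sum_le _ _

lemma weyl (r : ℕ) : ∀ ε : ℝ, 0 < ε → ∃ p0 : ℕ, ∀ (p : ℕ) [Fact p.Prime], p0 < p →
    ∀ φ : ZMod p → ZMod p, Deg r φ →
      (∀ x, φ x = φ 0) ∨ ‖∑ x, ZMod.stdAddChar (φ x)‖ ≤ ε * p := by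
  induction r with
  | zero =>
    intro ε hε
    exact ⟨0, fun p _ _ φ h => Or.inl fun x => by rw [h x, h 0]⟩
  | succ r ih =>
    intro ε hε
    obtain ⟨p0, hp0⟩ := ih (ε ^ 2 / 2) (by positivity)
    refine ⟨max p0 ⌈2 / ε ^ 2⌉₊, fun p _ hp φ hφ => ?_⟩
    have hp1 : p0 < p := lt_of_le_of_lt (le_max_left _ _) hp
    have hp2 : 2 / ε ^ 2 ≤ (p : ℝ) := by
      have : ⌈2 / ε ^ 2⌉₊ ≤ p := (lt_of_le_of_lt (le_max_right _ _) hp).le
      exact (Nat.le_ceil _).trans (by exact_mod_cast this)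
    by_cases hH : ∃ h : ZMod p, h ≠ 0 ∧ ∀ x, φ (x + h) - φ x = φ (0 + h) - φ 0
    · obtain ⟨h, h0, hh⟩ := hH
      set a := φ (0 + h) - φ 0 with ha
      have hm : ∀ m : ℕ, φ (m * h) = φ 0 + m * a := by
        intro m
        induction m with
        | zero => simp
        | succ m ihm =>
          have := hh (m * h)
          push_cast
          rw [add_mul, one_mul]
          linear_combination this + ihm
      have hy : ∀ y, φ y = φ 0 + y * (a * h⁻¹) := by
        intro y
        have := hm (y * h⁻¹).val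
        rw [ZMod.natCast_zmod_val] at this
        have e : y * h⁻¹ * h = y := by field_simp
        rw [e] at this
        rw [this]; ring
      by_cases hc : a * h⁻¹ = 0
      · left; intro x; rw [hy x, hc]; simp
      · right
        have : ∑ x, ZMod.stdAddChar (φ x) = 0 := by
          have e : ∀ x, ZMod.stdAddChar (φ x) =
              ZMod.stdAddChar (φ 0) * ZMod.stdAddChar (x * (a * h⁻¹)) := by
            intro x; rw [← AddChar.map_add_eq_mul, ← hy x]
          rw [Finset.sum_congr rfl (fun x _ => e x)]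
          rw [← Finset.mul_sum, AddChar.sum_mulShift _ (ZMod.isPrimitive_stdAddChar p)]
          rw [if_neg hc]; simp
        rw [this, norm_zero]; positivity
    · right
      push Not at hH
      have hb : ∀ h : ZMod p, ‖∑ x, ZMod.stdAddChar (φ (x + h) - φ x)‖ ≤
          (if h = 0 then (p : ℝ) else 0) + ε ^ 2 / 2 * p := by
        intro h
        by_cases h0 : h = 0
        · subst h0
          simp only [add_zero, sub_self, AddChar.map_zero_eq_one, sum_const, card_univ, ZMod.card,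
            if_true]
          simp
          positivity
        · rcases hp0 p hp1 _ (hφ h) with h1 | h1
          · obtain ⟨x, hx⟩ := hH h h0
            exact absurd (h1 x) hx
          · simpa [h0] using h1
      have h3 := (norm_sq_sum p φ).trans (Finset.sum_le_sum fun h _ => hb h)
      rw [Finset.sum_add_distrib] at h3
      simp only [sum_ite_eq', mem_univ, if_true, sum_const, card_univ, ZMod.card,
        nsmul_eq_mul] at h3
      have hp3 : 2 ≤ ε ^ 2 * p := by
        rw [div_le_iff₀ (by positivity)] at hp2; linarith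
      have hpp : (0 : ℝ) ≤ p := Nat.cast_nonneg _
      have h4 : ‖∑ x, ZMod.stdAddChar (φ x)‖ ^ 2 ≤ (ε * p) ^ 2 := by nlinarith
      exact (pow_le_pow_iff_left₀ (norm_nonneg _) (by positivity) two_ne_zero).1 h4

lemma trig (u : ℝ) : 5 / 8 - 2 / 3 * Real.cos (2 * u) + 1 / 24 * Real.cos (4 * u) ≤ u ^ 2 := by
  let f : ℝ → ℝ := fun u => u ^ 2 - 5 / 8 + 2 / 3 * Real.cos (2 * u) - 1 / 24 * Real.cos (4 * u)
  let f1 : ℝ → ℝ := fun u => 2 * u - 4 / 3 * Real.sin (2 * u) + 1 / 6 * Real.sin (4 * u)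
  let f2 : ℝ → ℝ := fun u => 2 - 8 / 3 * Real.cos (2 * u) + 2 / 3 * Real.cos (4 * u)
  have d1 : ∀ u, HasDerivAt f (f1 u) u := by
    intro u
    have a := ((hasDerivAt_id u).const_mul 2).cos
    have b := ((hasDerivAt_id u).const_mul 4).cos
    have c := (((hasDerivAt_pow 2 u).sub_const (5 / 8)).add (a.const_mul (2 / 3))).sub
      (b.const_mul (1 / 24))
    refine HasDerivAt.congr_deriv c ?_
    simp only [f1, id]; ring
  have d2 : ∀ u, HasDerivAt f1 (f2 u) u := by
    intro u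
    have a := ((hasDerivAt_id u).const_mul 2).sin
    have b := ((hasDerivAt_id u).const_mul 4).sin
    have c := ((((hasDerivAt_id u).const_mul 2).sub (a.const_mul (4 / 3))).add
      (b.const_mul (1 / 6)))
    refine HasDerivAt.congr_deriv c ?_
    simp only [f2, id]; ring
  have p2 : ∀ u, 0 ≤ f2 u := by
    intro u
    have : Real.cos (4 * u) = 2 * Real.cos (2 * u) ^ 2 - 1 := by
      rw [← Real.cos_two_mul]; ring_nf
    simp only [f2, this]
    nlinarith [sq_nonneg (1 - Real.cos (2 * u))]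
  have m1 : Monotone f1 := monotone_of_deriv_nonneg (fun u => (d2 u).differentiableAt)
    (fun u => by rw [(d2 u).deriv]; exact p2 u)
  have z1 : f1 0 = 0 := by simp [f1]
  have z0 : f 0 = 0 := by simp [f]; norm_num
  have key : ∀ u, 0 ≤ u → 0 ≤ f u := by
    intro u hu
    have mo : MonotoneOn f (Set.Ici 0) := by
      refine monotoneOn_of_deriv_nonneg (convex_Ici 0)
        (fun u _ => (d1 u).continuousAt.continuousWithinAt)
        (fun u _ => (d1 u).differentiableAt.differentiableWithinAt) (fun x hx => ?_)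
      rw [(d1 x).deriv, ← z1]
      exact m1 (le_of_lt (by simpa using hx))
    rw [← z0]; exact mo (by simp) hu hu
  rcases le_total 0 u with hu | hu
  · have := key u hu; simp only [f] at this; linarith
  · have := key (-u) (by linarith)
    simp only [f, mul_neg, Real.cos_neg, neg_sq] at this; linarith

lemma cos_sum (p : ℕ) [NeZero p] (g : ZMod p → ℕ) (c : ℝ) (m : ℕ) :
    |∑ x, Real.cos (2 * m * (Real.pi * ((g x - c) / p)))| ≤
      ‖∑ x, ZMod.stdAddChar ((m : ZMod p) * (g x : ZMod p))‖ := by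
  set w : ℂ := Complex.exp (((-(2 * m * Real.pi * c / p) : ℝ) : ℂ) * Complex.I) with hw
  have hw1 : ‖w‖ = 1 := Complex.norm_exp_ofReal_mul_I _
  have hp : (p : ℂ) ≠ 0 := by exact_mod_cast NeZero.ne p
  have e : ∀ x, Real.cos (2 * m * (Real.pi * ((g x - c) / p))) =
      (ZMod.stdAddChar ((m : ZMod p) * (g x : ZMod p)) * w).re := by
    intro x
    have : (m : ZMod p) * (g x : ZMod p) = (((m * g x : ℕ) : ℤ) : ZMod p) := by push_cast; ring
    rw [this, ZMod.stdAddChar_coe, hw, ← Complex.exp_add, ← Complex.exp_ofReal_mul_I_re]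
    congr 2
    push_cast
    field_simp
    ring
  simp_rw [e]
  rw [← Complex.re_sum, ← Finset.sum_mul]
  refine (Complex.abs_re_le_norm _).trans ?_
  rw [norm_mul, hw1, mul_one]

lemma var_lower (p : ℕ) [NeZero p] (g : ZMod p → ℕ) (c ε : ℝ)
    (h1 : ‖∑ x, ZMod.stdAddChar ((g x : ZMod p))‖ ≤ ε * p)
    (h2 : ‖∑ x, ZMod.stdAddChar (2 * (g x : ZMod p))‖ ≤ ε * p) :
    (5 / 8 - ε) * (p : ℝ) ^ 3 ≤ Real.pi ^ 2 * ∑ x, ((g x : ℝ) - c) ^ 2 := by
  have a1 := cos_sum p g c 1
  have a2 := cos_sum p g c 2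
  simp only [Nat.cast_one, mul_one, one_mul, Nat.cast_ofNat] at a1 a2
  have hp : (0 : ℝ) < p := by exact_mod_cast Nat.pos_of_ne_zero (NeZero.ne p)
  have s := Finset.sum_le_sum (s := (univ : Finset (ZMod p)))
    (fun x _ => trig (Real.pi * ((g x - c) / p)))
  rw [Finset.sum_add_distrib, Finset.sum_sub_distrib, ← Finset.mul_sum, ← Finset.mul_sum] at s
  simp only [sum_const, card_univ, ZMod.card, nsmul_eq_mul] at s
  have e : ∑ x, (Real.pi * (((g x : ℝ) - c) / p)) ^ 2 =
      (Real.pi ^ 2 * ∑ x, ((g x : ℝ) - c) ^ 2) / (p : ℝ) ^ 2 := by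
    rw [Finset.mul_sum, Finset.sum_div]
    refine Finset.sum_congr rfl fun x _ => ?_
    field_simp
  rw [e, le_div_iff₀ (by positivity)] at s
  have b1 := (abs_le.1 (a1.trans h1)).2
  have b2 := (abs_le.1 (a2.trans h2)).1
  have e4 : (2 * 2 : ℝ) = 4 := by norm_num
  rw [e4] at b2
  have hε : 0 ≤ ε * p := (norm_nonneg _).trans h1
  refine le_trans ?_ s
  have : (5 / 8 - ε) * (p : ℝ) ^ 3 = (p * (5 / 8) - ε * p) * (p : ℝ) ^ 2 := by ring
  rw [this]
  exact mul_le_mul_of_nonneg_right (by linarith) (by positivity)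

end Pool.Agent.SpecDir
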