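import Pool.Agent.H.MP_dfdf13_co.A

set_option autoImplicit false
open Finset

namespace Pool.Agent.SpecDir

variable {p : ℕ} [Fact p.Prime]

/-- the linear form of direction `d` -/
def ell (d : Option (ZMod p)) (q : ZMod p × ZMod p) : ZMod p :=
  d.elim q.1 (fun m => q.2 - m * q.1)

lemma ell_add (d : Option (ZMod p)) (q r : ZMod p × ZMod p) :
    ell d (q + r) = ell d q + ell d r := by
  cases d <;> simp [ell]; ring

lemma ell_sub (d : Option (ZMod p)) (q r : ZMod p × ZMod p) :
    ell d (q - r) = ell d q - ell d r := by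
  cases d <;> simp [ell]; ring

lemma ell_surj (d : Option (ZMod p)) (h : ZMod p) : ∃ v, ell d v = h := by
  cases d with
  | none => exact ⟨(h, 0), by simp [ell]⟩
  | some m => exact ⟨(0, h), by simp [ell]⟩

lemma ell_indep (d e : Option (ZMod p)) (hde : d ≠ e) (h : ZMod p) :
    ∃ v, ell e v = 0 ∧ ell d v = h := by
  cases d with
  | none =>
    cases e with
    | none => exact absurd rfl hde
    | some m => exact ⟨(h, m * h), by simp [ell], by simp [ell]⟩
  | some m =>
    cases e with
    | none => exact ⟨(0, h), by simp [ell], by simp [ell]⟩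
    | some n =>
      have : n - m ≠ 0 := fun h0 => hde (by rw [sub_eq_zero.1 h0])
      refine ⟨(h / (n - m), n * (h / (n - m))), by simp [ell], ?_⟩
      simp only [ell, Option.elim]
      field_simp

lemma count_dir (q : ZMod p × ZMod p) :
    ∑ d : Option (ZMod p), (if ell d q = 0 then 1 else 0 : ℕ) = 1 + if q = 0 then p else 0 := by
  rw [Fintype.sum_option]
  obtain ⟨x, y⟩ := q
  by_cases hx : x = 0
  · subst hx
    by_cases hy : y = 0
    · subst hy; simp [ell]
    · simp [ell, hy]
  · have : ∀ m : ZMod p, (ell (some m) (x, y) = 0) ↔ m = y / x := by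
      intro m
      simp only [ell, Option.elim]
      rw [eq_div_iff hx, sub_eq_zero, eq_comm]
    simp only [this]
    simp [ell, hx]

lemma deg_of_sum (i : Option (ZMod p)) (D : Finset (Option (ZMod p))) :
    i ∉ D → ∀ (φ : ZMod p → ZMod p) (ψ : Option (ZMod p) → ZMod p → ZMod p),
      (∀ z, φ (ell i z) + ∑ j ∈ D, ψ j (ell j z) = 0) → Deg D.card φ := by
  induction D using Finset.induction_on with
  | empty =>
    intro _ φ ψ h x
    obtain ⟨v, hv⟩ := ell_surj i x
    simpa [hv] using h v
  | insert j D hj ih =>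
    intro hi φ ψ h
    rw [Finset.card_insert_of_notMem hj]
    intro t
    have hij : i ≠ j := fun e => hi (by simp [e])
    obtain ⟨v, hv0, hv⟩ := ell_indep i j hij t
    refine ih (fun h' => hi (by simp [h'])) _
      (fun e b => ψ e (b + ell e v) - ψ e b) (fun z => ?_)
    have h1 := h (z + v)
    have h2 := h z
    rw [Finset.sum_insert hj] at h1 h2
    simp only [ell_add, hv0, hv, add_zero] at h1
    rw [Finset.sum_sub_distrib]
    linear_combination h1 - h2

/-- line intersection numbers -/
def gg (S : Finset (ZMod p × ZMod p)) (d : Option (ZMod p)) (b : ZMod p) : ℕ :=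
  (S.filter (fun q => ell d q = b)).card

lemma gg_le (S : Finset (ZMod p × ZMod p)) (d : Option (ZMod p)) (b : ZMod p) :
    gg S d b ≤ p := by
  have hc : (univ : Finset (ZMod p)).card = p := by simp
  unfold gg
  cases d with
  | none =>
    refine le_trans (Finset.card_le_card_of_injOn (t := univ) (fun q => q.2) (by simp) ?_) hc.le
    intro q hq r hr e
    simp only [coe_filter, ell, Option.elim, Set.mem_setOf_eq] at hq hr
    exact Prod.ext (hq.2.trans hr.2.symm) e
  | some m =>
    refine le_trans (Finset.card_le_card_of_injOn (t := univ) (fun q => q.1) (by simp) ?_) hc.le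
    intro q hq r hr e
    simp only [coe_filter, ell, Option.elim, Set.mem_setOf_eq] at hq hr
    refine Prod.ext e ?_
    have e' : q.1 = r.1 := e
    have := hq.2.trans hr.2.symm
    rw [e'] at this
    linear_combination this

lemma sum_gg (S : Finset (ZMod p × ZMod p)) (d : Option (ZMod p)) :
    ∑ b, gg S d b = S.card := by
  unfold gg
  rw [← Finset.card_eq_sum_card_fiberwise (by simp)]

lemma sum_dir (S : Finset (ZMod p × ZMod p)) (z : ZMod p × ZMod p) :
    ∑ d, gg S d (ell d z) = S.card + if z ∈ S then p else 0 := by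
  unfold gg
  simp only [Finset.card_filter]
  rw [Finset.sum_comm]
  have : ∀ s ∈ S, ∑ d : Option (ZMod p), (if ell d s = ell d z then 1 else 0 : ℕ) =
      1 + if s = z then p else 0 := by
    intro s _
    have := count_dir (s - z)
    simpa only [ell_sub, sub_eq_zero] using this
  rw [Finset.sum_congr rfl this, Finset.sum_add_distrib]
  simp

lemma sum_sq (S : Finset (ZMod p × ZMod p)) :
    ∑ d, ∑ b, gg S d b ^ 2 = S.card * (S.card + p) := by
  have h1 : ∀ d, ∑ b, gg S d b ^ 2 = ∑ s ∈ S, gg S d (ell d s) := by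
    intro d
    rw [← Finset.sum_fiberwise (s := S) (g := fun s => ell d s)]
    refine Finset.sum_congr rfl fun b _ => ?_
    rw [Finset.sum_congr rfl (g := fun _ => gg S d b)]
    · simp [gg, sq]
    · intro s hs
      rw [(Finset.mem_filter.1 hs).2]
  simp only [h1]
  rw [Finset.sum_comm, Finset.sum_congr rfl (g := fun _ => S.card + p)]
  · simp
  · intro s hs
    rw [sum_dir, if_pos hs]

lemma var_eq (S : Finset (ZMod p × ZMod p)) (n : ℕ) (hn : S.card = p * n)
    (d : Option (ZMod p)) :
    ∑ b, ((gg S d b : ℝ) - n) ^ 2 = ∑ b, (gg S d b : ℝ) ^ 2 - p * n ^ 2 := by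
  have h1 : ∑ b, (gg S d b : ℝ) = p * n := by
    have := sum_gg S d
    rw [hn] at this
    exact_mod_cast this
  have : ∀ b, ((gg S d b : ℝ) - n) ^ 2 = (gg S d b : ℝ) ^ 2 - 2 * n * gg S d b + n ^ 2 := by
    intro b; ring
  simp only [this]
  rw [Finset.sum_add_distrib, Finset.sum_sub_distrib, ← Finset.mul_sum, h1]
  simp only [sum_const, card_univ, ZMod.card, nsmul_eq_mul]
  ring

lemma var_total (S : Finset (ZMod p × ZMod p)) (n : ℕ) (hn : S.card = p * n) :
    ∑ d, ∑ b, ((gg S d b : ℝ) - n) ^ 2 = p * n * (p - n) := by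
  simp only [var_eq S n hn]
  rw [Finset.sum_sub_distrib]
  have h := sum_sq S
  rw [hn] at h
  have h' : ∑ d, ∑ b, (gg S d b : ℝ) ^ 2 = p * n * (p * n + p) := by exact_mod_cast h
  rw [h']
  simp only [sum_const, card_univ, Fintype.card_option, ZMod.card, nsmul_eq_mul]
  push_cast
  ring

end Pool.Agent.SpecDir
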