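import Pool.Agent.H.MP_dfdf13_co.B

set_option autoImplicit false
open Finset

namespace Pool.Agent.SpecDir

lemma deg_gg {p : ℕ} [Fact p.Prime] (S : Finset (ZMod p × ZMod p)) (n : ℕ) (hn : S.card = p * n)
    (D : Finset (Option (ZMod p))) (hD : ∀ d, d ∉ D → ∀ b, gg S d b = n)
    (i : Option (ZMod p)) (hi : i ∈ D) :
    Deg (D.card - 1) (fun b => (gg S i b : ZMod p)) := by
  rw [← Finset.card_erase_of_mem hi]
  refine deg_of_sum i (D.erase i) (by simp) _ (fun j b => (gg S j b : ZMod p) - n) (fun z => ?_)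
  have h1 : ∑ d, (gg S d (ell d z) : ZMod p) = 0 := by
    have := congrArg (Nat.cast : ℕ → ZMod p) (sum_dir S z)
    rw [hn] at this
    push_cast at this
    rw [this]
    split_ifs <;> simp
  have h2 : ∑ d, ((gg S d (ell d z) : ZMod p) - n) = -n := by
    rw [Finset.sum_sub_distrib, h1]
    simp
  have h3 : ∑ d ∈ D, ((gg S d (ell d z) : ZMod p) - n) =
      ∑ d, ((gg S d (ell d z) : ZMod p) - n) := by
    refine Finset.sum_subset (Finset.subset_univ _) (fun d _ hd => ?_)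
    rw [hD d hd, sub_self]
  rw [← Finset.add_sum_erase D _ hi, h2] at h3
  linear_combination h3

lemma degenerate {p : ℕ} [Fact p.Prime] (S : Finset (ZMod p × ZMod p)) (n : ℕ)
    (hn : S.card = p * n) (i : Option (ZMod p)) (hi : ∃ b, gg S i b ≠ n)
    (hc : ∀ b, (gg S i b : ZMod p) = gg S i 0) :
    ∑ b, ((gg S i b : ℝ) - n) ^ 2 = p * n * (p - n) := by
  have hp : 0 < p := (Fact.out : p.Prime).pos
  have hs := sum_gg S i
  by_cases h0 : (gg S i 0 : ZMod p) = 0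
  · have hb : ∀ b, (gg S i b : ℝ) ^ 2 = p * gg S i b := by
      intro b
      have h1 : p ∣ gg S i b := (ZMod.natCast_eq_zero_iff _ _).1 ((hc b).trans h0)
      rcases (gg_le S i b).lt_or_eq with h | h
      · rw [Nat.eq_zero_of_dvd_of_lt h1 h]; simp
      · rw [h]; ring
    rw [var_eq S n hn]
    simp only [hb]
    rw [← Finset.mul_sum]
    have : ∑ b, (gg S i b : ℝ) = p * n := by
      rw [hn] at hs; exact_mod_cast hs
    rw [this]; ring
  · exfalso
    have hlt : ∀ b, gg S i b < p := by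
      intro b
      refine lt_of_le_of_ne (gg_le S i b) (fun h => h0 ?_)
      rw [← hc b, h]; simp
    have hb : ∀ b, gg S i b = gg S i 0 := by
      intro b
      have := (ZMod.natCast_eq_natCast_iff' _ _ _).1 (hc b)
      rwa [Nat.mod_eq_of_lt (hlt b), Nat.mod_eq_of_lt (hlt 0)] at this
    obtain ⟨b, hb'⟩ := hi
    rw [Finset.sum_congr rfl (fun b _ => hb b), hn] at hs
    simp only [sum_const, card_univ, ZMod.card, smul_eq_mul] at hs
    exact hb' ((hb b).trans (Nat.eq_of_mul_eq_mul_left hp hs))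

theorem main (k : ℕ) (hk : 4 ≤ k) : ∃ p₀ : ℕ, ∀ (p : ℕ) [Fact p.Prime], p₀ < p →
    ∀ (S : Finset (ZMod p × ZMod p)) (n : ℕ), S.card = p * n →
      ∀ D : Finset (Option (ZMod p)), (∀ d, d ∈ D ↔ ∃ b, gg S d b ≠ n) → D.card ≠ k := by
  obtain ⟨p0, hp0⟩ := weyl (k - 1) (1 / 1000) (by norm_num)
  refine ⟨max p0 2, fun p _ hp S n hn D hD hcard => ?_⟩
  have hp1 : p0 < p := lt_of_le_of_lt (le_max_left _ _) hp
  have hp2 : 2 < p := lt_of_le_of_lt (le_max_right _ _) hp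
  have hD' : ∀ d, d ∉ D → ∀ b, gg S d b = n := by
    intro d hd b
    by_contra h
    exact hd ((hD d).2 ⟨b, h⟩)
  have htot := var_total S n hn
  have hnn : ∀ d, 0 ≤ ∑ b, ((gg S d b : ℝ) - n) ^ 2 :=
    fun d => Finset.sum_nonneg fun b _ => sq_nonneg _
  have hnc : ∀ i ∈ D, ¬ ∀ b, (gg S i b : ZMod p) = gg S i 0 := by
    intro i hi hc
    have h1 := degenerate S n hn i ((hD i).1 hi) hc
    obtain ⟨j, hj, hji⟩ : ∃ j ∈ D, j ≠ i := Finset.exists_mem_ne (by omega) i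
    obtain ⟨b, hb⟩ := (hD j).1 hj
    have h2 : 0 < ∑ b, ((gg S j b : ℝ) - n) ^ 2 := by
      refine Finset.sum_pos' (fun b _ => sq_nonneg _) ⟨b, mem_univ _, ?_⟩
      have : (gg S j b : ℝ) - n ≠ 0 := sub_ne_zero.2 (by exact_mod_cast hb)
      positivity
    have h3 := Finset.sum_le_sum_of_subset_of_nonneg
      (f := fun d => ∑ b, ((gg S d b : ℝ) - n) ^ 2) (Finset.subset_univ {j, i})
      (fun d _ _ => hnn d)
    rw [Finset.sum_pair hji, htot, h1] at h3
    linarith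
  have h2ne : (2 : ZMod p) ≠ 0 := by
    intro h
    have : ((2 : ℕ) : ZMod p) = 0 := by exact_mod_cast h
    have := Nat.le_of_dvd two_pos ((ZMod.natCast_eq_zero_iff _ _).1 this)
    omega
  have hlow : ∀ i ∈ D, (5 / 8 - 1 / 1000) * (p : ℝ) ^ 3 ≤
      Real.pi ^ 2 * ∑ b, ((gg S i b : ℝ) - n) ^ 2 := by
    intro i hi
    have hd := deg_gg S n hn D hD' i hi
    rw [hcard] at hd
    refine var_lower p (gg S i) n (1 / 1000) ?_ ?_
    · exact (hp0 p hp1 _ hd).resolve_left (hnc i hi)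
    · refine (hp0 p hp1 _ (Deg.mul 2 _ _ hd)).resolve_left (fun h => hnc i hi fun b => ?_)
      exact mul_left_cancel₀ h2ne (h b)
  have h4 := Finset.sum_le_sum hlow
  rw [Finset.sum_const, hcard, nsmul_eq_mul, ← Finset.mul_sum] at h4
  have h5 := Finset.sum_le_sum_of_subset_of_nonneg
      (f := fun d => ∑ b, ((gg S d b : ℝ) - n) ^ 2) (Finset.subset_univ D)
      (fun d _ _ => hnn d)
  rw [htot] at h5
  have hpp : (0 : ℝ) < p := by exact_mod_cast (by omega : 0 < p)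
  have h6 : (p : ℝ) * n * (p - n) ≤ (p : ℝ) ^ 3 / 4 := by
    nlinarith [mul_nonneg hpp.le (sq_nonneg ((p : ℝ) - 2 * n))]
  have hpi : Real.pi ^ 2 < 9.93 := by
    have := Real.pi_lt_d2
    have := Real.pi_pos
    nlinarith
  have hk' : (4 : ℝ) ≤ k := by exact_mod_cast hk
  have hp3 : (0 : ℝ) < (p : ℝ) ^ 3 := by positivity
  have h7 : Real.pi ^ 2 * ∑ d ∈ D, ∑ b, ((gg S d b : ℝ) - n) ^ 2 ≤
      Real.pi ^ 2 * ((p : ℝ) ^ 3 / 4) :=
    mul_le_mul_of_nonneg_left (h5.trans h6) (by positivity)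
  have h8 := h4.trans h7
  have h9 : Real.pi ^ 2 * ((p : ℝ) ^ 3 / 4) ≤ 9.93 * ((p : ℝ) ^ 3 / 4) :=
    mul_le_mul_of_nonneg_right hpi.le (by positivity)
  have h10 : 4 * ((5 / 8 - 1 / 1000) * (p : ℝ) ^ 3) ≤ k * ((5 / 8 - 1 / 1000) * (p : ℝ) ^ 3) :=
    mul_le_mul_of_nonneg_right hk' (by positivity)
  linarith

end Pool.Agent.SpecDir
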