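import Pool.Agent.H.MP_dfdf13_co.C

set_option autoImplicit false
open Finset

namespace Pool.Agent.SpecDir

variable {p : ℕ} [Fact p.Prime]

/-- the one-dimensional subspace of direction `d` -/
def dirSub (d : Option (ZMod p)) : Submodule (ZMod p) (ZMod p × ZMod p) :=
  Submodule.span (ZMod p) {d.elim (0, 1) (fun m => (1, m))}

lemma mem_dirSub (d : Option (ZMod p)) (q : ZMod p × ZMod p) : q ∈ dirSub d ↔ ell d q = 0 := by
  unfold dirSub
  rw [Submodule.mem_span_singleton]
  obtain ⟨x, y⟩ := q
  cases d with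
  | none =>
    simp only [ell, Option.elim, Prod.smul_mk, smul_eq_mul, mul_zero, mul_one, Prod.mk.injEq]
    constructor
    · rintro ⟨a, h, _⟩; exact h.symm
    · intro h; exact ⟨y, h.symm, rfl⟩
  | some m =>
    simp only [ell, Option.elim, Prod.smul_mk, smul_eq_mul, mul_one, Prod.mk.injEq]
    constructor
    · rintro ⟨a, h, h'⟩; rw [← h', ← h]; ring
    · intro h; exact ⟨x, rfl, by linear_combination -h⟩

lemma finrank_dirSub (d : Option (ZMod p)) : Module.finrank (ZMod p) (dirSub d) = 1 := by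
  unfold dirSub
  apply finrank_span_singleton
  cases d <;> simp

lemma dirSub_inj : Function.Injective (dirSub (p := p)) := by
  intro d e h
  by_contra hde
  obtain ⟨v, h0, h1⟩ := ell_indep d e hde 1
  rw [← mem_dirSub, ← h, mem_dirSub, h1] at h0
  exact one_ne_zero h0

lemma dirSub_surj (v : Submodule (ZMod p) (ZMod p × ZMod p))
    (hv : Module.finrank (ZMod p) v = 1) : ∃ d, dirSub d = v := by
  have hne : v ≠ ⊥ := by
    rintro rfl
    rw [finrank_bot] at hv
    exact zero_ne_one hv
  obtain ⟨w, hw, hw0⟩ := Submodule.exists_mem_ne_zero_of_ne_bot hne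
  have hd : ∃ d, ell d w = 0 := by
    by_contra h
    push Not at h
    have := count_dir w
    simp only [h, if_false, Finset.sum_const_zero] at this
    omega
  obtain ⟨d, hd⟩ := hd
  have h1 : Submodule.span (ZMod p) {w} = v :=
    Submodule.eq_of_le_of_finrank_eq ((Submodule.span_singleton_le_iff_mem _ _).2 hw)
      (by rw [finrank_span_singleton hw0, hv])
  have h2 : Submodule.span (ZMod p) {w} = dirSub d :=
    Submodule.eq_of_le_of_finrank_eq
      ((Submodule.span_singleton_le_iff_mem _ _).2 ((mem_dirSub d w).2 hd))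
      (by rw [finrank_span_singleton hw0, finrank_dirSub])
  exact ⟨d, h2.symm.trans h1⟩

lemma ncard_line (S : Set (ZMod p × ZMod p)) (T : Finset (ZMod p × ZMod p)) (hT : (T : Set _) = S)
    (d : Option (ZMod p)) (a : ZMod p × ZMod p) :
    {q ∈ S | q - a ∈ dirSub d}.ncard = gg T d (ell d a) := by
  unfold gg
  rw [← Set.ncard_coe_finset]
  congr 1
  ext q
  simp [mem_dirSub, ell_sub, sub_eq_zero, ← hT]

theorem main2 (k : ℕ) (hk : 4 ≤ k) : ∃ p₀ : ℕ, ∀ (p : ℕ) [Fact p.Prime], p₀ < p →
    ∀ S : Set (ZMod p × ZMod p),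
      {v : Submodule (ZMod p) (ZMod p × ZMod p) | Module.finrank (ZMod p) v = 1 ∧
        ∀ a b : ZMod p × ZMod p,
          {q ∈ S | q - a ∈ v}.ncard = {q ∈ S | q - b ∈ v}.ncard}.ncard ≠ p + 1 - k := by
  classical
  obtain ⟨p0, h⟩ := main k hk
  refine ⟨max p0 k, fun p _ hp S hS => ?_⟩
  have hp1 : p0 < p := lt_of_le_of_lt (le_max_left _ _) hp
  have hp2 : k < p := lt_of_le_of_lt (le_max_right _ _) hp
  set T := (Set.toFinite S).toFinset with hT
  have hTS : (T : Set _) = S := Set.Finite.coe_toFinset _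
  set E : Finset (Option (ZMod p)) := univ.filter (fun d => ∀ b c, gg T d b = gg T d c) with hE
  have hset : {v : Submodule (ZMod p) (ZMod p × ZMod p) | Module.finrank (ZMod p) v = 1 ∧
        ∀ a b : ZMod p × ZMod p,
          {q ∈ S | q - a ∈ v}.ncard = {q ∈ S | q - b ∈ v}.ncard} = dirSub '' (E : Set _) := by
    ext v
    simp only [Set.mem_setOf_eq, Set.mem_image, hE, coe_filter, mem_univ, true_and]
    constructor
    · rintro ⟨h1, h2⟩
      obtain ⟨d, rfl⟩ := dirSub_surj v h1
      refine ⟨d, fun b c => ?_, rfl⟩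
      obtain ⟨x, rfl⟩ := ell_surj d b
      obtain ⟨y, rfl⟩ := ell_surj d c
      rw [← ncard_line S T hTS, ← ncard_line S T hTS]
      exact h2 x y
    · rintro ⟨d, hd, rfl⟩
      refine ⟨finrank_dirSub d, fun a b => ?_⟩
      rw [ncard_line S T hTS, ncard_line S T hTS]
      exact hd _ _
  rw [hset, Set.ncard_image_of_injective _ dirSub_inj, Set.ncard_coe_finset] at hS
  have hcard : ∀ d ∈ E, T.card = p * gg T d 0 := by
    intro d hd
    have hd' := (Finset.mem_filter.1 hd).2
    rw [← sum_gg T d, Finset.sum_congr rfl (fun b _ => hd' b 0)]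
    simp
  obtain ⟨d0, hd0⟩ : E.Nonempty := Finset.card_pos.1 (by omega)
  have hn := hcard d0 hd0
  refine h p hp1 T _ hn Eᶜ (fun d => ?_) ?_
  · rw [Finset.mem_compl]
    constructor
    · intro hd
      by_contra hc
      push Not at hc
      exact hd (Finset.mem_filter.2 ⟨mem_univ _, fun b c => by rw [hc b, hc c]⟩)
    · rintro ⟨b, hb⟩ hd
      have h1 := hcard d hd
      rw [hn] at h1
      have h2 := Nat.eq_of_mul_eq_mul_left (by omega) h1
      exact hb (((Finset.mem_filter.1 hd).2 b 0).trans h2.symm)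
  · rw [Finset.card_compl, hS]
    simp only [Fintype.card_option, ZMod.card]
    omega

end Pool.Agent.SpecDir
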